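import Pool.Agent.H.MP_1611f1_gt.PD.CvD
import Pool.Agent.H.MP_1611f1_gt.LG.Defs

/-!
The pieces of the theorem on surfaces with two colours.
-/

namespace Pool.Agent.H.MP_1611f1_gt.HP

open Topology Set Filter
open Pool.Agent.H.MP_1611f1_gt.BR.U (Ci)
open Pool.Agent.H.MP_1611f1_gt.G (Ended Linear MTorus Detected)
open Pool.Agent.H.MP_1611f1_gt.LG (Drilled Cylinder)
open Pool.Agent.H.MP_1611f1_gt.PD (Design Cv)

/-- The curves which are removed from the product `M₀` of `S` and the circle, where `S` is a surface with a design `P`, and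
their neighbourhoods `Nb` (the coordinates are `(θ, (u, s))`, the curve is `u = 0`, `s = -4`):
the curves `e i` (`i ∈ A`) of the design, at their times; circles `j ∈ C` over the points
`(1/4, l j)` of walls; and curves `cv j` with `2 (k j)` colour changes at times in `ℤ / n` (see `PD.Cv`). The neighbourhoods
`|u| < 9`, `|s + 4| < 9` of different curves which are not of the form `e i` are disjoint. -/
structure Curves {S : Type} [TopologicalSpace S] {J A : Type} {old : J → Prop}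
    (P : Design S {j // old j} A) {M₀ : Type} [TopologicalSpace M₀] {T₀ : Ended M₀ {j // old j}}
    (Mt : MTorus P.E (Homeomorph.refl S) T₀) (n : ℕ) (Nb : {j // ¬ old j} → Cylinder → M₀)
    (e : A → {j // ¬ old j}) (C : Set {j // ¬ old j}) (k : {j // ¬ old j} → ℕ) where
  e_inj : Function.Injective e
  e_notMem : ∀ i, e i ∉ C
  e_nbh : ∀ i z, Nb (e i) z =
    P.N Mt i (z.1, ((z.2.1 / 16 : ℝ) : Ci), (((z.2.2 + 4) / 16 : ℝ) : Ci))
  ρ : ℝ
  ρ_pos : 0 < ρ
  ρ_le : ρ ≤ 1 / 288
  w : {j // ¬ old j} → A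
  l : {j // ¬ old j} → ℝ
  l_mem : ∀ j ∈ C, 1 / 8 + 9 * ρ < l j ∧ l j < 1 / 4 - 9 * ρ
  C_nbh : ∀ j ∈ C, ∀ z, Nb j z = P.N Mt (w j)
    (((1 / 4 + ρ * (z.2.2 + 4) : ℝ) : Ci), ((l j + ρ * z.2.1 : ℝ) : Ci), z.1)
  cv : ∀ j, (∀ i, j ≠ e i) → j ∉ C → Cv P n ρ (k j)
  cv_nbh : ∀ j h h' z, Nb j z =
    Mt.p ((cv j h h').ν (z.1, z.2.1), (cv j h h').i / n + ρ * (z.2.2 + 4))
  disj : ∀ j m, (∀ i, j ≠ e i) → (∀ i, m ≠ e i) → ∀ z w : Cylinder, |z.2.1| < 9 →
    |z.2.2 + 4| < 9 → |w.2.1| < 9 → |w.2.2 + 4| < 9 → Nb j z = Nb m w → j = m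

/-- The pieces of the main theorem, with the admissible covectors `(x j, y j)` at their ends `j`.
* `sided`: the product `M₀` of a surface `S` and the circle, minus curves. `S` has a design `P`, the curves are described by `Curves`. For a sign `ε` the
  covectors satisfy `0 < ε x`, `ε (x + y) ≤ 0` at the curves `e i`, `x ≠ 0` at the curves `C`, `x + (k j) y ≠ 0` at the
  other curves; and at the ends of `M₀` `x = 0`, `0 < ε y` if the colour of the collar is `1`, `ε y < 0` if it is `-1`.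
* `fol`: a manifold with a taut foliation which is given by `x j * θ + y j * t = const` near its ends. -/
inductive Good {M : Type} [TopologicalSpace M] {J : Type} (T : Ended M J) (x y : J → ℝ) : Prop
  | sided {S : Type} [TopologicalSpace S] [T2Space S] {A : Type} [Fintype A]
      (old : J → Prop) [Finite {j // ¬ old j}] (P : Design S {j // old j} A)
      {M₀ : Type} [TopologicalSpace M₀] [T2Space M₀] (T₀ : Ended M₀ {j // old j})
      (Mt : MTorus P.E (Homeomorph.refl S) T₀) (n : ℕ) (hn : 0 < n)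
      (Nb : {j // ¬ old j} → Cylinder → M₀) (e : A → {j // ¬ old j}) (C : Set {j // ¬ old j})
      (k : {j // ¬ old j} → ℕ) (Q : Curves P Mt n Nb e C k) (D : Drilled T₀ Nb T)
      (ε : ℝ) (hε : ε = 1 ∨ ε = -1)
      (hold : ∀ (j : {j // old j}) (z), x j = 0 ∧ 0 < ε * P.col (P.E.collar j z) * y j)
      (he : ∀ i, 0 < ε * x (e i).1 ∧ ε * (x (e i).1 + y (e i).1) ≤ 0)
      (hC : ∀ j ∈ C, x j.1 ≠ 0)
      (hk : ∀ j, (∀ i, j ≠ e i) → j ∉ C → x j.1 + k j * y j.1 ≠ 0) : Good T x y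
  | fol [T2Space M] (h : Detected T x y) : Good T x y

end Pool.Agent.H.MP_1611f1_gt.HP
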